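import Pool.Agent.H39.Newt2.Stmts

/-! # Project NEWTON2: basic lemmas -/

set_option autoImplicit false

namespace Pool.Newt2

open MvPolynomial Pool.Agent.H39.MonoR Pool.Agent.H75.Mono Pool.Newt

section Fun

variable {c c' : ℕ} {φ ψ γ : ℤ → ℝ} {s : ℤ} {X : ℝ}

theorem Thr.mono (h : Thr c φ) (hc : c ≤ c') : Thr c' φ := by
  refine ⟨fun v hv => h.1 v (by omega), fun v hv => ?_⟩
  rw [h.2 v (by omega), h.2 c' (by omega)]

theorem Slb.mono (h : Slb c φ) (hc : c ≤ c') : Slb c' φ :=
  ⟨fun v hv => h.1 v (by omega), fun v hv => h.2 v (by omega)⟩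

theorem Slb.thr (h : Slb c φ) : Thr c φ :=
  ⟨h.1, fun v hv => by rw [h.2 v hv, h.2 c le_rfl]⟩

theorem Slb.of_thr (h : Thr c φ) (h0 : φ c = 0) : Slb c φ :=
  ⟨h.1, fun v hv => by rw [h.2 v hv, h0]⟩

theorem Thr.shift (h : Thr c φ) (hs : s.natAbs ≤ c') : Thr (c + c') (fun v => φ (v - s)) := by
  refine ⟨fun v hv => h.1 _ (by push_cast at hv; omega), fun v hv => ?_⟩
  show φ (v - s) = φ (((c + c' : ℕ) : ℤ) - s)
  rw [h.2 (v - s) (by push_cast at hv; omega), h.2 (((c + c' : ℕ) : ℤ) - s) (by push_cast; omega)]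

theorem Slb.shift (h : Slb c φ) (hs : s.natAbs ≤ c') : Slb (c + c') (fun v => φ (v - s)) :=
  ⟨fun v hv => h.1 _ (by push_cast at hv; omega), fun v hv => h.2 _ (by push_cast at hv; omega)⟩

/-- a difference `φ(v) - φ(v-s)` has bounded support -/
theorem Thr.diff (h : Thr c φ) (hs : s.natAbs ≤ c') :
    Slb (c + c') (fun v => φ v - φ (v - s)) := by
  refine ⟨fun v hv => ?_, fun v hv => ?_⟩
  · show φ v - φ (v - s) = 0
    rw [h.1 v (by push_cast at hv; omega), h.1 (v - s) (by push_cast at hv; omega), sub_zero]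
  · show φ v - φ (v - s) = 0
    rw [h.2 v (by push_cast at hv; omega), h.2 (v - s) (by push_cast at hv; omega), sub_self]

theorem Thr.var (h : Thr c φ) (hs : s.natAbs ≤ c') (hv : Var s φ ψ) : Thr (c + c') ψ := by
  rcases hv with rfl | rfl | rfl
  · exact h.mono (Nat.le_add_right _ _)
  · exact h.shift hs
  · exact (h.diff hs).thr

theorem Slb.var (h : Slb c φ) (hs : s.natAbs ≤ c') (hv : Var s φ ψ) : Slb (c + c') ψ := by
  rcases hv with rfl | rfl | rfl
  · exact h.mono (Nat.le_add_right _ _)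
  · exact h.shift hs
  · exact h.thr.diff hs

/-- the shape `γ(v-1) - X γ(v)` is preserved -/
theorem Var.num (h : φ = fun v => γ (v - 1) - X * γ v) (hv : Var s φ ψ) :
    ∃ γ', Var s γ γ' ∧ (ψ = fun v => γ' (v - 1) - X * γ' v) ∧
      ((ψ = fun v => φ v - φ (v - s)) → ψ = (fun v => φ v - φ (v - s))) := by
  rcases hv with rfl | rfl | rfl
  · exact ⟨γ, Or.inl rfl, h, fun h => h⟩
  · refine ⟨fun v => γ (v - s), Or.inr (Or.inl rfl), ?_, fun h => h⟩
    rw [h]
    funext v
    show γ (v - s - 1) - X * γ (v - s) = γ (v - 1 - s) - X * γ (v - s)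
    rw [show v - s - 1 = v - 1 - s by ring]
  · refine ⟨fun v => γ v - γ (v - s), Or.inr (Or.inr rfl), ?_, fun h => h⟩
    rw [h]
    funext v
    show (γ (v - 1) - X * γ v) - (γ (v - s - 1) - X * γ (v - s)) =
      (γ (v - 1) - γ (v - 1 - s)) - X * (γ v - γ (v - s))
    rw [show v - s - 1 = v - 1 - s by ring]
    ring

/-- the numerator of a difference -/
theorem num_diff (h : φ = fun v => γ (v - 1) - X * γ v) :
    (fun v => φ v - φ (v - s)) = fun v => (fun v => γ v - γ (v - s)) (v - 1) -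
      X * (fun v => γ v - γ (v - s)) v := by
  rw [h]
  funext v
  show (γ (v - 1) - X * γ v) - (γ (v - s - 1) - X * γ (v - s)) =
    (γ (v - 1) - γ (v - 1 - s)) - X * (γ v - γ (v - s))
  rw [show v - s - 1 = v - 1 - s by ring]
  ring

/-- a bound for `φ` -/
theorem Thr.bdd (h : Thr c φ) : ∃ B : ℝ, 0 ≤ B ∧ ∀ v, |φ v| ≤ B := by
  refine ⟨(∑ v ∈ Finset.Icc (-(c : ℤ)) c, |φ v|) + |φ c|,
    add_nonneg (Finset.sum_nonneg fun _ _ => abs_nonneg _) (abs_nonneg _), fun v => ?_⟩
  rcases lt_or_ge v (-(c : ℤ)) with h1 | h1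
  · rw [h.1 v h1, abs_zero]
    exact add_nonneg (Finset.sum_nonneg fun _ _ => abs_nonneg _) (abs_nonneg _)
  · rcases le_or_gt v (c : ℤ) with h2 | h2
    · have := Finset.single_le_sum (f := fun v => |φ v|) (fun _ _ => abs_nonneg _)
        (Finset.mem_Icc.2 ⟨h1, h2⟩)
      exact this.trans (le_add_of_nonneg_right (abs_nonneg _))
    · rw [h.2 v h2.le]
      exact le_add_of_nonneg_left (Finset.sum_nonneg fun _ _ => abs_nonneg _)

end Fun

section Lam

variable {σ I : Type} [Fintype σ] [Fintype I] (a : I → σ → ℕ)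

omit [Fintype I] in
theorem lam_sub (u u' : σ → ℤ) (N N' : ℤ) (ξ : Co σ I) :
    lam a (fun l => u l - u' l) (N - N') ξ = lam a u N ξ - lam a u' N' ξ := by
  rcases ξ with _ | l | i
  · rfl
  · rfl
  · show (∑ l, (u l - u' l) * (a i l : ℤ)) - (N - N') =
      ((∑ l, u l * (a i l : ℤ)) - N) - ((∑ l, u' l * (a i l : ℤ)) - N')
    simp only [sub_mul, Finset.sum_sub_distrib]
    ring

omit [Fintype I] in
theorem lam_nat (w : σ → ℕ) (m : ℕ) (i : I) :
    lam a (fun l => (w l : ℤ)) m (some (Sum.inr i)) = (dot w (a i) : ℤ) - m := by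
  show (∑ l, (w l : ℤ) * (a i l : ℤ)) - (m : ℤ) = (dot w (a i) : ℤ) - m
  simp [dot]

theorem lam_face [Nonempty I] (w : σ → ℕ) (i : I) :
    lam a (fun l => (w l : ℤ)) (Nw a w) (some (Sum.inr i)) = 0 ↔ i ∈ face a w := by
  rw [lam_nat, mem_face_iff]
  omega

end Lam

section Rank

variable {σ I : Type} [Fintype σ] [Fintype I]

omit [Fintype I] [Fintype σ] in
theorem rk_empty (a : I → σ → ℕ) : rk a ∅ = 0 := by
  unfold rk
  have : (Set.range fun (i : (∅ : Finset I)) (l : σ) => (a i l : ℚ)) = ∅ := by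
    rw [Set.range_eq_empty_iff]
    exact ⟨fun i => absurd i.2 (Finset.notMem_empty _)⟩
  rw [this, Submodule.span_empty, finrank_bot]

omit [Fintype I] in
/-- the rank of exponents in which the variables in `F` do not occur -/
theorem rk_le (a : I → σ → ℕ) (τ : Finset I) (F : Finset σ) (h : ∀ j ∈ F, ∀ i ∈ τ, a i j = 0) :
    F.card + rk a τ ≤ Fintype.card σ := by
  classical
  let V : Submodule ℚ (σ → ℚ) :=
    { carrier := {x | ∀ j ∈ F, x j = 0}
      add_mem' := fun {x y} hx hy j hj => by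
        show x j + y j = 0
        rw [hx j hj, hy j hj, add_zero]
      zero_mem' := fun j _ => rfl
      smul_mem' := fun r x hx j hj => by
        show r * x j = 0
        rw [hx j hj, mul_zero] }
  have h1 : Submodule.span ℚ (Set.range fun (i : τ) (l : σ) => (a i l : ℚ)) ≤ V := by
    rw [Submodule.span_le]
    rintro _ ⟨i, rfl⟩ j hj
    show (a i j : ℚ) = 0
    rw [h j hj i i.2, Nat.cast_zero]
  have h2 : rk a τ ≤ Module.finrank ℚ V := Submodule.finrank_mono h1
  have h3 : Module.finrank ℚ V ≤ Fintype.card {j // j ∉ F} := by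
    let f : V →ₗ[ℚ] ({j // j ∉ F} → ℚ) :=
      { toFun := fun x j => (x : σ → ℚ) j
        map_add' := fun x y => rfl
        map_smul' := fun r x => rfl }
    have hf : Function.Injective f := by
      intro x y hxy
      ext j
      by_cases hj : j ∈ F
      · rw [x.2 j hj, y.2 j hj]
      · exact congrFun hxy ⟨j, hj⟩
    have := LinearMap.finrank_le_finrank_of_injective hf
    rwa [Module.finrank_fintype_fun_eq_card] at this
  have h4 : Fintype.card {j // j ∉ F} = Fintype.card σ - F.card := by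
    rw [Fintype.card_subtype_compl (fun j => j ∈ F)]
    congr 1
    exact Fintype.card_coe F
  have h5 : F.card ≤ Fintype.card σ := Finset.card_le_univ F
  omega

end Rank

end Pool.Newt2
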