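import Pool.Agent.H39.Newt.Stmts

/-!
# Project NEWTON2 (MP_432c1b_ag): B1-facets, definitions

Plan: /team-store/NEWTON2_PLAN.md. Notation of `Pool/Agent/H39/Newt/Defs.lean`.

* `rk a τ`: rank of the exponents in `τ`; `tpoly a c τ`: the part of the polynomial;
* `Val`, `Mov`, `Inv2`, `Lab`: valid pairs, moves, invariant functions, labelled weights;
* `Tor`, `mon`, `TC`: tori (with inverses), Laurent monomials, classes in tori;
* `ev x`: `ℤ[T,T⁻¹] → R`, `T ↦ x`; `cpd`, `Fc`, `Fs`, `Psi`, `QQ`: the universal series;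
* `Co`, `lam`, `Thr`, `Slb`, `Var`, `Ser`, `dW`, `Uu`, `Us`, `As`, `phi`: lattice sums;
* `dP`.
-/

set_option autoImplicit false

namespace Pool.Newt2

open MvPolynomial Pool.Agent.H39.MonoR Pool.Agent.H75.Mono Pool.Newt

section Comb

variable {σ I : Type} [Fintype σ] [Fintype I]

/-- the rank of the exponents in `τ` -/
noncomputable def rk (a : I → σ → ℕ) (τ : Finset I) : ℕ :=
  Module.finrank ℚ (Submodule.span ℚ (Set.range fun (i : τ) (l : σ) => (a i l : ℚ)))

/-- `(i, l)` is valid on `τ`: `i ∈ τ`, `a_il = 1` and `a_i'l = 0` for the other `i' ∈ τ` -/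
def Val (a : I → σ → ℕ) (τ : Finset I) (i : I) (l : σ) : Prop :=
  i ∈ τ ∧ a i l = 1 ∧ ∀ i' ∈ τ, i' ≠ i → a i' l = 0

open Classical in
/-- `τ' = τ \ {i}` for a valid pair `(i, l)` -/
def Mov (a : I → σ → ℕ) (τ τ' : Finset I) : Prop := ∃ i l, Val a τ i l ∧ τ' = τ.erase i

/-- functions which are invariant under moves -/
def Inv2 (a : I → σ → ℕ) (D : Finset I → ℤ) : Prop := ∀ τ τ', Mov a τ τ' → D τ = D τ'

/-- the weight `w` is labelled by `(Y, l)`: its face is a pyramid of height one, with an apex `i ∈ Y`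
in the direction `l i`, and no `i ∈ Y` on the face is involved in an affine relation of the face -/
def Lab (a : I → σ → ℕ) (Y : Finset I) (l : I → σ) (w : σ → ℕ) : Prop :=
  (∃ i ∈ Y, i ∈ face a w ∧ w (l i) ≠ 0 ∧ ∀ i' ∈ face a w, i' ≠ i → a i' (l i) = 0) ∧
    ∀ i ∈ Y, i ∈ face a w → ∀ κ ∈ Ker a, (∀ i', i' ∉ face a w → κ i' = 0) → κ i = 0

end Comb

section Poly

variable {k : Type} [Field k] {σ I : Type} [Fintype σ] [Fintype I]

/-- the part `∑_{i ∈ τ} c_i x^(a_i)` of the polynomial -/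
noncomputable def tpoly (a : I → σ → ℕ) (c : I → k) (τ : Finset I) : MvPolynomial σ k :=
  ∑ i ∈ τ, monomial (Finsupp.equivFunOnFinite.symm (a i)) (c i)

end Poly

section Torus

/-- points of the torus with their inverses -/
def Tor (J : Type) : Set ((J → ℂ) × (J → ℂ)) := {p | ∀ j, p.1 j * p.2 j = 1}

/-- Laurent monomials -/
noncomputable def mon {J : Type} [Fintype J] (x : J → ℂ) (m : J → ℤ) : ℂ := ∏ j, x j ^ m j

/-- the class of `{x : ∑_{i ∈ τ} c_i x^(m_i) = v}` in the torus -/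
noncomputable def TC (k : Type) [Field k] [Algebra k ℂ] {I J : Type} [Fintype J] (c : I → k)
    (τ : Finset I) (m : I → J → ℤ) (v : k) : M k :=
  mo k {p : (J → ℂ) × (J → ℂ) | p ∈ Tor J ∧
    ∑ i ∈ τ, algebraMap k ℂ (c i) * mon p.1 (m i) = algebraMap k ℂ v}

/-- `E` identifies `ℤ^J` with the saturation of the lattice spanned by the `a_i`, `i ∈ τ`, and
`E (m_i) = a_i` -/
structure Adp {σ I J : Type} [Fintype σ] [Fintype I] [Fintype J] (a : I → σ → ℕ) (τ : Finset I)
    (E : (J → ℤ) →+ (σ → ℤ)) (m : I → J → ℤ) : Prop where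
  inj : Function.Injective E
  sat : ∀ (n : ℕ) (x : σ → ℤ), n ≠ 0 → (∃ y, E y = (fun l => n * x l)) → ∃ y, E y = x
  val : ∀ i ∈ τ, E (m i) = fun l => (a i l : ℤ)
  card : Fintype.card J = rk a τ

end Torus

section Series

/-- the ring homomorphism `T ↦ x` -/
noncomputable def ev {R : Type*} [CommRing R] (x : Rˣ) : LaurentPolynomial ℤ →+* R :=
  LaurentPolynomial.eval₂ (Int.castRingHom R) x

variable {σ I : Type} [Fintype σ] [Fintype I]

/-- the coordinates of `u` which are at least `c` -/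
def cpd (c : ℕ) (u : σ → ℕ) : Finset σ := Finset.univ.filter fun j => c ≤ u j

open Classical in
/-- the sum of `L^(#F - |u|) (L - 1)^(n - #F - rk τ)` over the weights `u` with face `τ` and
`N(u) = N`, truncated at `c`; `F` is the set of truncated coordinates -/
noncomputable def Fc (a : I → σ → ℕ) (c : ℕ) (τ : Finset I) (N : ℕ) : LaurentPolynomial ℤ :=
  ∑ u ∈ (Fintype.piFinset fun _ : σ => Finset.range (c + 1)).filter
      (fun u => face a u = (τ : Set I) ∧ Nw a u = N),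
    LaurentPolynomial.T (((cpd c u).card : ℤ) - ((∑ j, u j : ℕ) : ℤ)) *
      (LaurentPolynomial.T 1 - 1) ^ (Fintype.card σ - (cpd c u).card - rk a τ)

/-- the series `∑_{N ≥ 1} F_{τ,N} T^N` -/
noncomputable def Fs (a : I → σ → ℕ) (τ : Finset I) : PowerSeries (LaurentPolynomial ℤ) :=
  PowerSeries.mk fun N => if N = 0 then 0 else Fc a (N + 1) τ N

open Classical in
/-- `∑_τ (-1)^#τ D(τ) F_τ` -/
noncomputable def Psi (a : I → σ → ℕ) (D : Finset I → ℤ) : PowerSeries (LaurentPolynomial ℤ) :=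
  ∑ τ : Finset I, PowerSeries.C (LaurentPolynomial.C ((-1) ^ τ.card * D τ)) * Fs a τ

open Classical in
/-- `∑_τ (L-1)^(rk τ) F_τ` -/
noncomputable def QQ (a : I → σ → ℕ) : PowerSeries (LaurentPolynomial ℤ) :=
  ∑ τ : Finset I, PowerSeries.C ((LaurentPolynomial.T 1 - 1) ^ (rk a τ)) * Fs a τ

/-- a product of factors `1 - L^(-n) T^N` -/
noncomputable def dP (W : Multiset (ℕ × ℕ)) : PowerSeries (LaurentPolynomial ℤ) :=
  (W.map fun p => 1 - PowerSeries.C (LaurentPolynomial.T (-(p.1 : ℤ))) * PowerSeries.X ^ p.2).prod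

/-- the pairs `(|w|, N(w))` -/
noncomputable def prs (a : I → σ → ℕ) (W : Multiset (σ → ℕ)) : Multiset (ℕ × ℕ) :=
  W.map fun w => (∑ l, w l, Nw a w)

end Series

section Lattice

variable {σ I : Type} [Fintype σ] [Fintype I]

/-- the coordinates: `none` for `N`, `inl l` for `u_l`, `inr k` for `u · a_k - N` -/
abbrev Co (σ I : Type) : Type := Option (σ ⊕ I)

/-- the linear forms on `(u, N)` -/
def lam (a : I → σ → ℕ) (u : σ → ℤ) (N : ℤ) : Co σ I → ℤ
  | none => N
  | some (Sum.inl l) => u l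
  | some (Sum.inr i) => (∑ l, u l * (a i l : ℤ)) - N

/-- `φ` vanishes below `-c` and is constant from `c` on -/
def Thr (c : ℕ) (φ : ℤ → ℝ) : Prop := (∀ v, v < -(c : ℤ) → φ v = 0) ∧ ∀ v, (c : ℤ) ≤ v → φ v = φ c

/-- `φ` vanishes outside of `[-c, c)` -/
def Slb (c : ℕ) (φ : ℤ → ℝ) : Prop := (∀ v, v < -(c : ℤ) → φ v = 0) ∧ ∀ v, (c : ℤ) ≤ v → φ v = 0

/-- the three forms of a factor after telescoping -/
def Var (s : ℤ) (φ ψ : ℤ → ℝ) : Prop :=
  ψ = φ ∨ ψ = (fun v => φ (v - s)) ∨ ψ = (fun v => φ v - φ (v - s))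

/-- the lattice sums `∑_u ∏ φ_ξ(λ_ξ(u,N)) X^|u|` as a series in `T` -/
noncomputable def Ser (a : I → σ → ℕ) (X : ℝ) (φ : Co σ I → ℤ → ℝ) : PowerSeries ℝ :=
  PowerSeries.mk fun N => ∑' u : σ → ℤ, (∏ ξ, φ ξ (lam a u N ξ)) * X ^ (∑ l, u l)

/-- the product of the `1 - X^|w| T^N(w)` -/
noncomputable def dW (a : I → σ → ℕ) (X : ℝ) (W : Multiset (σ → ℕ)) : PowerSeries ℝ :=
  (W.map fun w => 1 - PowerSeries.C (X ^ (∑ l, w l)) * PowerSeries.X ^ (Nw a w)).prod

open Classical in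
/-- the sum over the weights with face `τ` and `N(u) = N` -/
noncomputable def Uu (a : I → σ → ℕ) (X : ℝ) (τ : Finset I) (N : ℕ) : ℝ :=
  ∑' u : σ → ℕ, if face a u = (τ : Set I) ∧ Nw a u = N then X ^ (∑ l, u l) else 0

/-- the series of the `Uu`, `N ≥ 1` -/
noncomputable def Us (a : I → σ → ℕ) (X : ℝ) (τ : Finset I) : PowerSeries ℝ :=
  PowerSeries.mk fun N => if N = 0 then 0 else Uu a X τ N

open Classical in
/-- the series of the sums over the weights with `N(u) > N`, `N ≥ 1` -/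
noncomputable def As (a : I → σ → ℕ) (X : ℝ) : PowerSeries ℝ :=
  PowerSeries.mk fun N => if N = 0 then 0 else
    ∑' u : σ → ℕ, if N < Nw a u then X ^ (∑ l, u l) else 0

open Classical in
/-- the factors: `δ_0` on `Z`, `g` on `Y \ Z`, `1_{> 0}` for the other exponents -/
noncomputable def phi (x : ℝ) (Z Y : Finset I) : Co σ I → ℤ → ℝ
  | none => fun v => if 1 ≤ v then 1 else 0
  | some (Sum.inl _) => fun v => if 0 ≤ v then 1 else 0
  | some (Sum.inr i) => fun v =>
      if i ∈ Z then (if v = 0 then 1 else 0)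
      else if i ∈ Y then (if v < 0 then 0 else if v = 0 then -1 / (x - 1) else 1)
      else (if 0 < v then 1 else 0)

end Lattice

end Pool.Newt2
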