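import Pool.Agent.H39.Newt2.Defs
import Pool.Agent.H91.Newt.ZET

/-!
# Project NEWTON2 (MP_432c1b_ag): statements of the modules

Module XXX proves `SXxx`, with the statements of other modules as hypotheses.
-/

set_option autoImplicit false

namespace Pool.Newt2

open MvPolynomial Pool.Agent.H39.MonoR Pool.Agent.H75.Mono Pool.Newt

/-! ### classes in tori -/

/-- TIN: invariance under automorphisms of the torus -/
def STin : Prop :=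
  ∀ (k : Type) [Field k] [Algebra k ℂ] (I J J' : Type) [Fintype J] [Fintype J']
    (E : (J' → ℤ) ≃+ (J → ℤ)) (c : I → k) (τ : Finset I) (m : I → J' → ℤ) (v : k),
    TC k c τ (fun i => E (m i)) v = TC k c τ m v

/-- TSP: variables which do not occur -/
def STsp : Prop :=
  ∀ (k : Type) [Field k] [Algebra k ℂ] (I J J' : Type) [Fintype J] [Fintype J']
    (c : I → k) (τ : Finset I) (m : I → J → ℤ) (v : k),
    TC k c τ (fun i => Sum.elim (m i) (0 : J' → ℤ)) v =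
      ((↑(Lu k) : M k) - 1) ^ (Fintype.card J') * TC k c τ m v

open Classical in
/-- TAF: from affine coordinates to tori -/
def STaf : Prop :=
  ∀ (k : Type) [Field k] [Algebra k ℂ] (σ I : Type) [Fintype σ] [Fintype I]
    (a : I → σ → ℕ) (c : I → k) (τ : Finset I) (F : Finset σ) (v : k),
    (∀ j ∈ F, ∀ i ∈ τ, a i j = 0) →
    mo k {z : σ → ℂ | (∀ j, j ∉ F → z j ≠ 0) ∧ aeval z (tpoly a c τ) = algebraMap k ℂ v} =
      (↑(Lu k) : M k) ^ F.card * TC k c τ (fun i (j : {j // j ∉ F}) => (a i j : ℤ)) v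

open Classical in
/-- TAP: the class of a pyramid of height one; for `τ = ∅` -/
def STap : Prop :=
  ∀ (k : Type) [Field k] [Algebra k ℂ] (I J : Type) [Fintype J] (c : I → k) (τ : Finset I) (v : k),
    (∀ (i : I) (m : I → J → ℤ), i ∈ τ → c i ≠ 0 →
      TC k c τ (fun i' (j : Option J) => if i' = i then (if j = none then 1 else 0)
        else j.elim 0 (m i')) v + TC k c (τ.erase i) m v =
          ((↑(Lu k) : M k) - 1) ^ (Fintype.card J)) ∧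
    (∀ m : I → J → ℤ, TC k c ∅ m 1 = 0 ∧ TC k c ∅ m 0 = ((↑(Lu k) : M k) - 1) ^ (Fintype.card J))

/-- LUN: uniqueness of the lattice coordinates -/
def SLun : Prop :=
  ∀ (σ I J J' : Type) [Fintype σ] [Fintype I] [Fintype J] [Fintype J'] (a : I → σ → ℕ)
    (τ : Finset I) (E : (J → ℤ) →+ (σ → ℤ)) (m : I → J → ℤ) (E' : (J' → ℤ) →+ (σ → ℤ))
    (m' : I → J' → ℤ), Adp a τ E m → Adp a τ E' m' →
    ∃ e : (J' → ℤ) ≃+ (J → ℤ), ∀ i ∈ τ, e (m' i) = m i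

/-- LEX: existence of lattice coordinates, with a complement, for the exponents in the coordinates
`P ⊇ supp` -/
def SLex : Prop :=
  ∀ (σ I : Type) [Fintype σ] [Fintype I] (a : I → σ → ℕ) (τ : Finset I),
    ∃ (r s : ℕ) (E : (Fin r ⊕ Fin s → ℤ) ≃+ (σ → ℤ)) (m : I → Fin r → ℤ),
      r = rk a τ ∧ r + s = Fintype.card σ ∧
      ∀ i ∈ τ, E (Sum.elim (m i) 0) = fun l => (a i l : ℤ)

open Classical in
/-- LAP: lattice coordinates of a pyramid of height one -/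
def SLap : Prop :=
  ∀ (σ I J : Type) [Fintype σ] [Fintype I] [Fintype J] (a : I → σ → ℕ) (τ : Finset I) (i : I)
    (l : σ), Val a τ i l → rk a τ = rk a (τ.erase i) + 1 ∧
    ∀ (E : (J → ℤ) →+ (σ → ℤ)) (m : I → J → ℤ), Adp a (τ.erase i) E m →
      ∃ E' : (Option J → ℤ) →+ (σ → ℤ), Adp a τ E'
        (fun i' (j : Option J) => if i' = i then (if j = none then 1 else 0)
          else j.elim 0 (m i'))

open Classical in
/-- CLS: the classes `C_v(τ)` (from TIN, TSP, TAF, TAP, LUN, LEX, LAP) -/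
def SCls : Prop :=
  ∀ (k : Type) [Field k] [Algebra k ℂ] (σ I : Type) [Fintype σ] [Fintype I]
    (a : I → σ → ℕ) (c : I → k), (∀ i, c i ≠ 0) → ∃ C : Finset I → k → M k,
    (∀ (τ : Finset I) (F : Finset σ) (v : k), (∀ j ∈ F, ∀ i ∈ τ, a i j = 0) →
      F.card + rk a τ ≤ Fintype.card σ ∧
      mo k {z : σ → ℂ | (∀ j, j ∉ F → z j ≠ 0) ∧ aeval z (tpoly a c τ) = algebraMap k ℂ v} =
        (↑(Lu k) : M k) ^ F.card *
          ((↑(Lu k) : M k) - 1) ^ (Fintype.card σ - F.card - rk a τ) * C τ v) ∧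
    (∀ (τ : Finset I) (i : I) (l : σ) (v : k), Val a τ i l →
      C τ v + C (τ.erase i) v = ((↑(Lu k) : M k) - 1) ^ (rk a τ - 1)) ∧
    C ∅ 1 = 0 ∧ C ∅ 0 = 1

/-! ### the motivic zeta function -/

open Classical in
/-- ZCP: the coefficients of the zeta function (from CLA, CLB) -/
def SZcp : Prop :=
  ∀ (k : Type) [Field k] [Algebra k ℂ] (σ I : Type) [Fintype σ] [Fintype I] [Nonempty I]
    (a : I → σ → ℕ) (c : I → k), Ndg a c → ∀ d : ℕ,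
    PowerSeries.coeff d (Zmot k (poly a c)) =
      ∑ u ∈ Fintype.piFinset fun _ : σ => Finset.range (d + 2),
        (if Nw a u = d then
          ↑(Lu k ^ (-((∑ j, u j : ℕ) : ℤ))) *
            mo k {z : σ → ℂ | (∀ j, j ∉ cpd (d + 1) u → z j ≠ 0) ∧ aeval z (fpoly a c u) = 1}
        else if Nw a u < d then
          ↑(Lu k ^ (-((∑ j, u j : ℕ) : ℤ) - ((d - Nw a u : ℕ) : ℤ))) *
            mo k {z : σ → ℂ | (∀ j, j ∉ cpd (d + 1) u → z j ≠ 0) ∧ aeval z (fpoly a c u) = 0}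
        else 0)

/-- LPZ: Laurent polynomials are determined by their values -/
def SLpz : Prop :=
  ∀ p : LaurentPolynomial ℤ, (∀ x : ℝˣ, 1 < (x : ℝ) → ev x p = 0) → p = 0

open Classical in
/-- GEO: summation over truncated coordinates -/
def SGeo : Prop :=
  ∀ (σ : Type) [Fintype σ] (c : ℕ) (φ : (σ → ℕ) → ℝ), (∀ u, φ u = φ fun j => min (u j) c) →
    ∀ X : ℝ, 0 < X → X < 1 →
    Summable (fun u : σ → ℕ => φ u * X ^ (∑ j, u j)) ∧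
    ∑' u : σ → ℕ, φ u * X ^ (∑ j, u j) =
      ∑ u ∈ Fintype.piFinset fun _ : σ => Finset.range (c + 1),
        φ u * X ^ (∑ j, u j) * ((1 - X)⁻¹) ^ (cpd c u).card

/-- EVL: evaluation of the truncated sums; they do not depend on the truncation (from GEO, LPZ) -/
def SEvl : Prop :=
  ∀ (σ I : Type) [Fintype σ] [Fintype I] [Nonempty I] (a : I → σ → ℕ) (τ : Finset I) (N c : ℕ),
    N < c → (∀ x : ℝˣ, 1 < (x : ℝ) → ev x (Fc a c τ N) =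
      ((x : ℝ) - 1) ^ ((Fintype.card σ : ℤ) - (rk a τ : ℤ)) * Uu a (↑(x⁻¹) : ℝ) τ N) ∧
    Fc a c τ N = Fc a (N + 1) τ N

open Classical in
/-- ZFM: the zeta function in terms of the universal series (from CLS, ZCP, EVL) -/
def SZfm : Prop :=
  ∀ (k : Type) [Field k] [Algebra k ℂ] (σ I : Type) [Fintype σ] [Fintype I] [Nonempty I]
    (a : I → σ → ℕ) (c : I → k), (∀ i, c i ≠ 0) → Ndg a c → ∃ C : Finset I → k → M k,
    (∀ (τ : Finset I) (i : I) (l : σ) (v : k), Val a τ i l →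
      C τ v + C (τ.erase i) v = ((↑(Lu k) : M k) - 1) ^ (rk a τ - 1)) ∧
    C ∅ 1 = 0 ∧ C ∅ 0 = 1 ∧ ∃ Z0 ∈ RS k {((-1 : ℤ), (1 : ℕ))}, Zmot k (poly a c) = Z0 +
      ∑ τ : Finset I, (PowerSeries.C (C τ 1) + PowerSeries.C (C τ 0) * ZET_H (Lu k)) *
        PowerSeries.map (ev (Lu k)) (Fs a τ)

open Classical in
/-- MBA: reduction to invariant functions (from LAP: the rank) -/
def SMba : Prop :=
  ∀ (k : Type) [Field k] [Algebra k ℂ] (σ I : Type) [Fintype σ] [Fintype I]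
    (a : I → σ → ℕ) (C : Finset I → k → M k),
    (∀ (τ : Finset I) (i : I) (l : σ) (v : k), Val a τ i l →
      C τ v + C (τ.erase i) v = ((↑(Lu k) : M k) - 1) ^ (rk a τ - 1)) →
    C ∅ 1 = 0 → C ∅ 0 = 1 → ∀ S : Set (ℤ × ℕ), ((-1 : ℤ), (1 : ℕ)) ∈ S →
    (∀ D, Inv2 a D → D ∅ = 0 → PowerSeries.map (ev (Lu k)) (Psi a D) ∈ RS k S) →
    (∀ D, Inv2 a D → D ∅ = 1 → PowerSeries.map (ev (Lu k))
      ((1 - PowerSeries.X) * Psi a D - QQ a) ∈ RS k S) →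
    ∑ τ : Finset I, (PowerSeries.C (C τ 1) + PowerSeries.C (C τ 0) * ZET_H (Lu k)) *
      PowerSeries.map (ev (Lu k)) (Fs a τ) ∈ RS k S

/-! ### lattice sums -/

/-- SUM: convergence of the lattice sums -/
def SSum : Prop :=
  ∀ (σ I : Type) [Fintype σ] [Fintype I] (a : I → σ → ℕ) (X : ℝ), 0 < X → X < 1 →
    ∀ (c : ℕ) (φ : Co σ I → ℤ → ℝ), (∀ ξ, Thr c (φ ξ)) → ∀ N : ℤ,
    Summable fun u : σ → ℤ => (∏ ξ, φ ξ (lam a u N ξ)) * X ^ (∑ l, u l)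

/-- TEA: the telescoping product -/
def STea : Prop :=
  ∀ (Ξ : Type) [Fintype Ξ] (s : Ξ → ℤ) (φ : Ξ → ℤ → ℝ), ∃ Φ : Ξ → Ξ → ℤ → ℝ,
    (∀ v : Ξ → ℤ, ∏ ξ, φ ξ (v ξ) - ∏ ξ, φ ξ (v ξ - s ξ) = ∑ ξ, ∏ ξ', Φ ξ ξ' (v ξ')) ∧
    (∀ ξ, Φ ξ ξ = fun v => φ ξ v - φ ξ (v - s ξ)) ∧ ∀ ξ ξ', Var (s ξ') (φ ξ') (Φ ξ ξ')

/-- TEL: multiplication by `1 - X^|w| T^m` (from SUM, TEA) -/
def STel : Prop :=
  ∀ (σ I : Type) [Fintype σ] [Fintype I] (a : I → σ → ℕ) (X : ℝ), 0 < X → X < 1 →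
    ∀ (w : σ → ℕ) (m c : ℕ) (φ : Co σ I → ℤ → ℝ), (∀ ξ, Thr c (φ ξ)) →
    (∀ v, v ≤ 0 → φ none v = 0) → ∃ Φ : Co σ I → Co σ I → ℤ → ℝ,
      (1 - PowerSeries.C (X ^ (∑ l, w l)) * PowerSeries.X ^ m) * Ser a X φ =
        ∑ ξ, Ser a X (Φ ξ) ∧
      ∀ ξ, (Φ ξ ξ = fun v => φ ξ v - φ ξ (v - lam a (fun l => (w l : ℤ)) m ξ)) ∧
        ∀ ξ', Var (lam a (fun l => (w l : ℤ)) m ξ') (φ ξ') (Φ ξ ξ')

open Classical in
/-- TEM: translation by `e_l`, when the factor of `i` is `γ(v-1) - X γ(v)` and `a_il = 1`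
(from SUM, TEA) -/
def STem : Prop :=
  ∀ (σ I : Type) [Fintype σ] [Fintype I] (a : I → σ → ℕ) (X : ℝ), 0 < X → X < 1 →
    ∀ (i : I) (l : σ), a i l = 1 → ∀ (c : ℕ) (φ : Co σ I → ℤ → ℝ) (γ : ℤ → ℝ),
    (∀ ξ, Thr c (φ ξ)) → Thr c γ → (φ (some (Sum.inr i)) = fun v => γ (v - 1) - X * γ v) →
    ∃ Φ : Co σ I → Co σ I → ℤ → ℝ,
      Ser a X φ = ∑ ξ ∈ Finset.univ.erase (some (Sum.inr i)), Ser a X (Φ ξ) ∧
      ∀ ξ, ξ ≠ some (Sum.inr i) →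
        (Φ ξ ξ = fun v => φ ξ v - φ ξ (v - lam a (Pi.single l 1) 0 ξ)) ∧
        (Φ ξ (some (Sum.inr i)) = fun v => γ (v - 1)) ∧
        ∀ ξ', ξ' ≠ some (Sum.inr i) → Var (lam a (Pi.single l 1) 0 ξ') (φ ξ') (Φ ξ ξ')

/-- FNR: finiteness of a region without directions at infinity (Dickson's lemma) -/
def SFnr : Prop :=
  ∀ (σ I : Type) [Fintype σ] [Fintype I] (a : I → σ → ℕ) (Sl : Finset (Co σ I)) (c : ℕ),
    (∀ (w : σ → ℕ) (m : ℕ), (∀ ξ, 0 ≤ lam a (fun l => (w l : ℤ)) m ξ) →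
      (∀ ξ ∈ Sl, lam a (fun l => (w l : ℤ)) m ξ = 0) → m = 0) →
    ∃ N0 : ℕ, ∀ (u : σ → ℤ) (N : ℕ), N0 ≤ N → (∀ ξ, -(c : ℤ) ≤ lam a u N ξ) →
      (∀ ξ ∈ Sl, lam a u N ξ ≤ c) → False

/-- MIN: directions of minimal support are rigid weights -/
def SMin : Prop :=
  ∀ (σ I : Type) [Fintype σ] [Fintype I] [Nonempty I] (a : I → σ → ℕ) (Sl : Finset (Co σ I)),
    none ∉ Sl → (∀ l, some (Sum.inl l) ∉ Sl → ∃ i, some (Sum.inr i) ∈ Sl ∧ a i l ≠ 0) →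
    (∃ (w : σ → ℕ) (m : ℕ), (∀ ξ, 0 ≤ lam a (fun l => (w l : ℤ)) m ξ) ∧
      (∀ ξ ∈ Sl, lam a (fun l => (w l : ℤ)) m ξ = 0) ∧ m ≠ 0) →
    ∃ w : σ → ℕ, Rigid a w ∧ 0 < Nw a w ∧
      ∀ ξ ∈ Sl, lam a (fun l => (w l : ℤ)) (Nw a w) ξ = 0

/-- RAT: rationality of the lattice sums (from TEL, FNR, MIN) -/
def SRat : Prop :=
  ∀ (σ I : Type) [Fintype σ] [Fintype I] [Nonempty I] (a : I → σ → ℕ) (Sl : Finset (Co σ I))
    (c : ℕ), ∃ (W : Multiset (σ → ℕ)) (N0 : ℕ),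
    (∀ w ∈ W, Rigid a w ∧ 0 < Nw a w ∧
      ∀ ξ ∈ Sl, ξ ≠ none → lam a (fun l => (w l : ℤ)) (Nw a w) ξ = 0) ∧
    ∀ (X : ℝ) (φ : Co σ I → ℤ → ℝ), 0 < X → X < 1 → (∀ ξ, Thr c (φ ξ)) →
      (∀ ξ ∈ Sl, Slb c (φ ξ)) → (∀ v, v ≤ 0 → φ none v = 0) →
      ∀ N, N0 ≤ N → PowerSeries.coeff N (dW a X W * Ser a X φ) = 0

/-- SLB: fewer poles, because of the factors `γ(v-1) - X γ(v)` (from TEM, RAT) -/
def SSlb : Prop :=
  ∀ (σ I : Type) [Fintype σ] [Fintype I] [Nonempty I] (a : I → σ → ℕ) (Y : Finset I)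
    (l : I → σ), (∀ i ∈ Y, a i (l i) = 1) → ∀ (Sl : Finset (Co σ I)) (c : ℕ),
    ∃ (W : Multiset (σ → ℕ)) (N0 : ℕ),
    (∀ w ∈ W, Rigid a w ∧ 0 < Nw a w ∧
      (∀ ξ ∈ Sl, ξ ≠ none → lam a (fun l => (w l : ℤ)) (Nw a w) ξ = 0) ∧
      ∀ i ∈ Y, w (l i) = 0 ∨ ∃ i' ∈ face a w, i' ≠ i ∧ a i' (l i) ≠ 0) ∧
    ∀ (X : ℝ) (φ : Co σ I → ℤ → ℝ), 0 < X → X < 1 → (∀ ξ, Thr c (φ ξ)) →
      (∀ ξ ∈ Sl, Slb c (φ ξ)) → (∀ v, v ≤ 0 → φ none v = 0) →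
      (∀ i ∈ Y, ∃ γ : ℤ → ℝ, Thr c γ ∧ (some (Sum.inr i) ∈ Sl → Slb c γ) ∧
        φ (some (Sum.inr i)) = fun v => γ (v - 1) - X * γ v) →
      ∀ N, N0 ≤ N → PowerSeries.coeff N (dW a X W * Ser a X φ) = 0

/-! ### the universal series -/

open Classical in
/-- EVQ: the lattice sums of `phi` (from SUM) -/
def SEvq : Prop :=
  ∀ (σ I : Type) [Fintype σ] [Fintype I] [Nonempty I] (a : I → σ → ℕ) (x : ℝˣ), 1 < (x : ℝ) →
    (∀ Z Y : Finset I, Ser a (↑(x⁻¹) : ℝ) (phi x Z Y) =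
      (if Z = ∅ then As a (↑(x⁻¹) : ℝ) else 0) + ∑ P ∈ (Y \ Z).powerset,
        PowerSeries.C ((-1 / ((x : ℝ) - 1)) ^ P.card) * Us a (↑(x⁻¹) : ℝ) (Z ∪ P)) ∧
    ∀ N : ℕ, 2 ≤ N → PowerSeries.coeff N ((1 - PowerSeries.X) * As a (↑(x⁻¹) : ℝ)) =
      -∑ τ : Finset I, PowerSeries.coeff N (Us a (↑(x⁻¹) : ℝ) τ)

/-- PSI: the universal series have no poles which are labelled (from EVL, EVQ, SLB, LAP) -/
def SPsi : Prop :=
  ∀ (σ I : Type) [Fintype σ] [Fintype I] [Nonempty I] (a : I → σ → ℕ) (Y : Finset I)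
    (l : I → σ), (∀ i ∈ Y, a i (l i) = 1) → ∃ (W : Multiset (σ → ℕ)) (N0 : ℕ),
    (∀ w ∈ W, Rigid a w ∧ 0 < Nw a w ∧ ¬ Lab a Y l w) ∧
    ∀ x : ℝˣ, 1 < (x : ℝ) → ∀ D : Finset I → ℤ, Inv2 a D → ∀ N, N0 ≤ N →
      (D ∅ = 0 → PowerSeries.coeff N (dW a (↑(x⁻¹) : ℝ) W *
        PowerSeries.map (ev x) (Psi a D)) = 0) ∧
      (D ∅ = 1 → PowerSeries.coeff N (dW a (↑(x⁻¹) : ℝ) W *
        PowerSeries.map (ev x) ((1 - PowerSeries.X) * Psi a D - QQ a)) = 0)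

/-- INT: intersection of denominators; from numbers to Laurent polynomials (from LPZ) -/
def SInt : Prop :=
  ∀ (Φ : PowerSeries (LaurentPolynomial ℤ)) (W : Multiset (ℕ × ℕ)) (N0 : ℕ) (J : Type)
    (WJ : J → Multiset (ℕ × ℕ)) (NJ : J → ℕ), (∀ p ∈ W, 0 < p.2) → (∀ j, ∀ p ∈ WJ j, 0 < p.2) →
    (∀ x : ℝˣ, 1 < (x : ℝ) → ∀ N, N0 ≤ N →
      PowerSeries.coeff N (PowerSeries.map (ev x) (dP W * Φ)) = 0) →
    (∀ j, ∀ x : ℝˣ, 1 < (x : ℝ) → ∀ N, NJ j ≤ N →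
      PowerSeries.coeff N (PowerSeries.map (ev x) (dP (WJ j) * Φ)) = 0) →
    ∃ W', W' ≤ W ∧ (∀ p ∈ W', ∀ j, ∃ p' ∈ WJ j, p.1 * p'.2 = p'.1 * p.2) ∧
      ∀ N, N0 ≤ N → PowerSeries.coeff N (dP W' * Φ) = 0

/-- MEM: membership in `RS` -/
def SMem : Prop :=
  ∀ (k : Type) [Field k] [Algebra k ℂ] (S : Set (ℤ × ℕ)), (∀ p ∈ S, 0 < p.2) →
    ∀ (Φ : PowerSeries (LaurentPolynomial ℤ)) (W : Multiset (ℕ × ℕ)) (N0 : ℕ),
    (∀ p ∈ W, (-(p.1 : ℤ), p.2) ∈ S) →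
    (∀ N, N0 ≤ N → PowerSeries.coeff N (dP W * Φ) = 0) →
    PowerSeries.map (ev (Lu k)) Φ ∈ RS k S

/-- ZTW: the motivic zeta function: labelled rays give no poles (from ZFM, MBA, PSI, INT, MEM) -/
def SZtw : Prop :=
  ∀ (k : Type) [Field k] [Algebra k ℂ] (σ I : Type) [Fintype σ] [Fintype I] [Nonempty I]
    (a : I → σ → ℕ) (c : I → k), (∀ i, c i ≠ 0) → Ndg a c →
    ∃ R : Finset (σ → ℕ), (∀ w ∈ R, Rigid a w ∧ 0 < Nw a w ∧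
      ¬ ∃ (Y : Finset I) (l : I → σ), (∀ i ∈ Y, a i (l i) = 1) ∧ ∀ w', Rigid a w' → 0 < Nw a w' →
        (∑ j, w j) * Nw a w' = (∑ j, w' j) * Nw a w → Lab a Y l w') ∧
      Zmot k (poly a c) ∈ RS k ({((-1 : ℤ), (1 : ℕ))} ∪
        {p | ∃ w ∈ R, p = (-((∑ j, w j : ℕ) : ℤ), Nw a w)})

end Pool.Newt2
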